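import Pool.Agent.Helper28.LF.PhV
import Pool.Agent.Helper32.FR.Defs
import Pool.Agent.Helper63.LF.Dom

/-!
# Project LF, LF-4: an ordinal closed under the functions which give the witnesses
-/

set_option autoImplicit false
set_option linter.unusedSectionVars false

namespace Pool.Agent.Helper50.LF

open Pool.Agent.Helper33.HM Pool.Agent.Helper94.BA
open Pool.Agent.Helper32.FR (wt nd PN okV avV lsV valV incV accS accV piV Scale Bdg OmOne FT aT brN PB)

section Gen

variable {B : Type 1} [CompleteBooleanAlgebra B] {c : Ordinal.{0} → ℕ → B}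

theorem phV_fn (X : ℕ → ℕ → B) (m : ℕ) (A : ℕ → B) (t : Node) : IsFn Set.univ (phV X m A t) := by
  refine ⟨fun _ _ => Set.mem_univ _, fun k v => ?_, fun k => top_le_iff.1 ?_⟩
  · refine sup_le_sup_right (iSup_le fun n => iSup_le fun hn => ?_) _
    exact le_iSup_of_le n (le_iSup_of_le ⟨hn.1, hn.2.trans (Nat.lt_succ_self v)⟩ le_rfl)
  · rw [← sup_compl_eq_top (x := accS X m A t k)]
    refine sup_le (iSup_le fun n => iSup_le fun hn => ?_) (le_iSup_of_le 0 le_sup_right)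
    exact le_iSup_of_le (wt (nd n) + 1) (le_sup_of_le_left
      (le_iSup_of_le n (le_iSup_of_le ⟨hn, Nat.lt_succ_self _⟩ le_rfl)))

theorem h46_phV_congr {X Y : ℕ → ℕ → B} {m : ℕ} (h : ∀ i, i < m → X i = Y i) (A : ℕ → B)
    (t : Node) : phV X m A t = phV Y m A t := by
  have h1 : ∀ n : ℕ, (⨅ i : ℕ, ⨅ _ : i < m, (okV t (X i) ⇨ avV t (X i) (nd n))) =
      ⨅ i : ℕ, ⨅ _ : i < m, (okV t (Y i) ⇨ avV t (Y i) (nd n)) := fun n =>
    iInf_congr fun i => iInf_congr fun hi => by rw [h i hi]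
  funext k v
  unfold phV Pool.Agent.Helper32.FR.accS
  simp only [h1]

theorem h46_step (hccc : CCC B) (hb : Bdg B) (hc : Scale c) (A : ℕ → B) (t : Node)
    (β : Ordinal.{0}) : ∃ γ : Ordinal.{0}, β < γ ∧ ∀ (l : ℕ → Ordinal.{0}) (m : ℕ),
      (∀ i, i < m → l i < β) →
      leStar (phV (fun i => c (l i)) m A t) (decV (c γ)) = ⊤ := by
  let S : Type 1 := Σ m : ℕ, (Fin m → Set.Iio β)
  have : Small.{0} S := inferInstanceAs (Small.{0} (Σ m : ℕ, (Fin m → Set.Iio β)))
  let φ : S → ℕ → ℕ → B := fun s =>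
    phV (fun i => c (if h : i < s.1 then (s.2 ⟨i, h⟩ : Ordinal.{0}) else 0)) s.1 A t
  obtain ⟨γ, hγ, h⟩ := exists_dom hccc hb hc (β + 1) (Shrink.{0} S)
    (fun i => φ ((equivShrink S).symm i)) (fun _ => phV_fn _ _ _ _)
  refine ⟨γ, lt_of_lt_of_le (lt_add_one β) hγ, fun l m hl => ?_⟩
  have h1 := h (equivShrink S ⟨m, fun i => ⟨l i, hl i i.2⟩⟩)
  rw [Equiv.symm_apply_apply] at h1
  have h2 : φ ⟨m, fun i => ⟨l i, hl i i.2⟩⟩ = phV (fun i => c (l i)) m A t := by
    refine h46_phV_congr (fun i hi => ?_) A t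
    simp only [dif_pos hi]
  rw [h2] at h1
  exact h1

theorem exists_closed (hccc : CCC B) (hb : Bdg B) (hc : Scale c) (A : ℕ → B) (t : Node) :
    ∃ γ : Ordinal.{0}, ∀ (l : ℕ → Ordinal.{0}) (m : ℕ), (∀ i, i < m → l i < γ) →
      leStar (phV (fun i => c (l i)) m A t) (decV (c γ)) = ⊤ := by
  choose F hF h using h46_step hccc hb hc A t
  let g : ℕ → Ordinal.{0} := fun n => F^[n] 0
  have hg : ∀ n, g (n + 1) = F (g n) := fun n => Function.iterate_succ_apply' F n 0
  have hlt : ∀ n, g n < g (n + 1) := fun n => by rw [hg]; exact hF _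
  have hmono : Monotone g := monotone_nat_of_le_succ fun n => (hlt n).le
  have hbd : BddAbove (Set.range g) := Ordinal.bddAbove_of_small
  have hle : ∀ n, g n ≤ ⨆ n, g n := fun n => le_ciSup hbd n
  refine ⟨⨆ n, g n, fun l m hl => ?_⟩
  have h1 : ∃ n, ∀ i, i < m → l i < g n := by
    induction m with
    | zero => exact ⟨0, fun i hi => absurd hi (Nat.not_lt_zero i)⟩
    | succ m ih =>
      obtain ⟨n, hn⟩ := ih fun i hi => hl i (hi.trans (Nat.lt_succ_self m))
      obtain ⟨n', hn'⟩ := (lt_ciSup_iff hbd).1 (hl m (Nat.lt_succ_self m))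
      refine ⟨max n n', fun i hi => ?_⟩
      rcases Nat.lt_succ_iff_lt_or_eq.1 hi with hi | rfl
      · exact (hn i hi).trans_le (hmono (le_max_left _ _))
      · exact hn'.trans_le (hmono (le_max_right _ _))
  obtain ⟨n, hn⟩ := h1
  have h2 := h (g n) l m hn
  rw [← hg] at h2
  have h3 : leStar (decV (c (g (n + 1)))) (decV (c (⨆ n, g n))) = ⊤ :=
    hc.mono _ _ ((hlt (n + 1)).trans_le (hle _))
  have h4 := leStar_trans (phV (fun i => c (l i)) m A t) (decV (c (g (n + 1))))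
    (decV (c (⨆ n, g n)))
  rw [h2, h3, top_inf_eq] at h4
  exact top_le_iff.1 h4

end Gen

end Pool.Agent.Helper50.LF
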